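import Mathlib
import Pool.Agent.helper37.NE.SpecB

set_option autoImplicit false

namespace Pool.Agent.NE

open Pool.Agent.helper58.DC Pool.Agent.DI Pool.Agent.GR Pool.Agent.OB Pool.Agent.DR Pool.Agent.FI Pool.Agent.FI3 Pool.Agent.FI4 Pool.Agent.FI4I Pool.Agent.LE Pool.Agent.L5 Pool.Agent.NAB Pool.Agent.ND

theorem YIX : YIX_stmt := by
  intro p hp G _ _ K K' hKK' hP
  haveI : Fact p.Prime := ⟨hp⟩
  obtain ⟨P⟩ : Nonempty (Sylow p K') := inferInstance
  have h2 : (P : Subgroup K') ≤ K.subgroupOf K' := by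
    intro y hy
    obtain ⟨k, hk⟩ := P.isPGroup' ⟨y, hy⟩
    have hk' : (y : G) ^ p ^ k = 1 := by
      have h := congrArg (fun t : (P : Subgroup K') => ((t : K') : G)) hk
      simpa using h
    exact hP (y : G) y.2 ⟨k, hk'⟩
  refine ⟨(K.subgroupOf K').index, ?_, ?_⟩
  · intro hd
    have h3 : (K.subgroupOf K').index ∣ (P : Subgroup K').index := Subgroup.index_dvd_of_le h2
    exact P.not_dvd_index (hd.trans h3)
  · have h4 := Subgroup.card_mul_index (K.subgroupOf K')
    rw [Nat.card_congr (Subgroup.subgroupOfEquivOfLe hKK').toEquiv] at h4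
    exact h4.symm

end Pool.Agent.NE
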